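import Mathlib
import Pool.Agent.RatProg.Basic

set_option autoImplicit false

namespace Pool.Agent.Results.MP_4db342_co.ConstantInSpan

open Polynomial Pool.Agent.RatProg

/-- If the constant function `1` is a rational linear combination of `P₁/Q₁` and `P₂/Q₂`, then sets of
positive density without progressions exist modulo all large primes. -/
theorem result (P₁ Q₁ P₂ Q₂ : ℤ[X]) (h1 : Q₁ ≠ 0) (h2 : Q₂ ≠ 0)
    (hspan : (1 : RatFunc ℚ) ∈ Submodule.span ℚ {ratf P₁ Q₁, ratf P₂ Q₂}) :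
    ∃ (δ : ℝ) (p₀ : ℕ), 0 < δ ∧ ∀ (p : ℕ) [Fact p.Prime], p₀ ≤ p →
      ∃ A : Finset (ZMod p), ¬ HasProgression p P₁ Q₁ P₂ Q₂ A ∧ δ * (p : ℝ) ≤ (A.card : ℝ) := by
  obtain ⟨a, b, c, hc, hid⟩ := poly_identity h1 h2 hspan
  have hpos : (0 : ℝ) < 4 * (|a| + |b| + 1) := by positivity
  refine ⟨1 / (4 * (|a| + |b| + 1)), c.natAbs + 3, by positivity, ?_⟩
  intro p hp hple
  have hcp : (c : ZMod p) ≠ 0 := by
    rw [Ne, ZMod.intCast_zmod_eq_zero_iff_dvd]
    intro hdvd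
    have h3 : p ∣ c.natAbs := by
      rwa [← Int.natCast_dvd]
    have h4 := Nat.le_of_dvd (Int.natAbs_pos.2 hc) h3
    omega
  obtain ⟨A, hA1, hA2⟩ := dense_free hid p hcp (by omega)
  refine ⟨A, hA1, ?_⟩
  rw [one_div, inv_mul_le_iff₀ hpos]
  exact hA2

end Pool.Agent.Results.MP_4db342_co.ConstantInSpan
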