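import Mathlib
import Pool.Agent.RatProg.Basic

set_option autoImplicit false

namespace Pool.Agent.Results.MP_4db342_co.LiteralNegation

open Polynomial Pool.Agent.RatProg

/-- The negated form of Q1: a quadruple satisfying all stated hypotheses for which no power saving
bound holds. -/
theorem result : ∃ P₁ Q₁ P₂ Q₂ : ℤ[X], Q₁ ≠ 0 ∧ Q₂ ≠ 0 ∧ P₁.eval 0 = 0 ∧ P₂.eval 0 = 0 ∧
    LinearIndependent ℚ ![ratf P₁ Q₁, ratf P₂ Q₂] ∧
    ∀ γ : ℝ, 0 < γ → ∀ C : ℝ, ∃ (p : ℕ) (_ : Fact p.Prime) (A : Finset (ZMod p)),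
      ¬ HasProgression p P₁ Q₁ P₂ Q₂ A ∧ C * (p : ℝ) ^ (1 - γ) < (A.card : ℝ) := by
  refine ⟨X, X ^ 2, X ^ 2 + X, X ^ 2, ?_, ?_, by simp, by simp, ?_, ?_⟩
  · exact pow_ne_zero _ X_ne_zero
  · exact pow_ne_zero _ X_ne_zero
  · rw [LinearIndependent.pair_iff]
    intro s t hst
    have hX : (RatFunc.X : RatFunc ℚ) ≠ 0 := RatFunc.X_ne_zero
    have h1 : ratf X (X ^ 2) = 1 / RatFunc.X := by
      unfold ratf
      simp only [Polynomial.map_X, Polynomial.map_pow, map_pow, RatFunc.algebraMap_X]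
      field_simp
    have h2 : ratf (X ^ 2 + X) (X ^ 2) = 1 + 1 / RatFunc.X := by
      unfold ratf
      simp only [Polynomial.map_X, Polynomial.map_pow, Polynomial.map_add, map_add, map_pow,
        RatFunc.algebraMap_X]
      field_simp
    rw [h1, h2, Algebra.smul_def, Algebra.smul_def] at hst
    have h3 : algebraMap ℚ (RatFunc ℚ) (s + t) + algebraMap ℚ (RatFunc ℚ) t * RatFunc.X = 0 := by
      rw [map_add]
      field_simp at hst
      linear_combination hst
    have h4 : algebraMap ℚ[X] (RatFunc ℚ) (Polynomial.C (s + t) + Polynomial.C t * X) = 0 := by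
      have e1 : ∀ r : ℚ, algebraMap ℚ[X] (RatFunc ℚ) (Polynomial.C r) = algebraMap ℚ (RatFunc ℚ) r := by
        intro r
        rw [IsScalarTower.algebraMap_apply ℚ ℚ[X] (RatFunc ℚ)]
        rfl
      rw [map_add, map_mul, RatFunc.algebraMap_X, e1, e1]
      exact h3
    rw [map_eq_zero_iff _ (RatFunc.algebraMap_injective ℚ)] at h4
    have c0 := congrArg (fun q => Polynomial.coeff q 0) h4
    have c1 := congrArg (fun q => Polynomial.coeff q 1) h4
    simp at c0 c1
    constructor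
    · rw [c1] at c0
      simpa using c0
    · exact c1
  · intro γ hγ C
    -- choose a large prime
    have htend : Filter.Tendsto (fun n : ℕ => ((n : ℝ)) ^ γ) Filter.atTop Filter.atTop :=
      (tendsto_rpow_atTop hγ).comp tendsto_natCast_atTop_atTop
    obtain ⟨N, hN⟩ := (htend.eventually_gt_atTop (12 * C)).exists_forall_of_atTop
    obtain ⟨p, hpN, hp⟩ := Nat.exists_infinite_primes (N + 3)
    have : Fact p.Prime := ⟨hp⟩
    have hid : Polynomial.C (-1 : ℤ) * X * X ^ 2 + Polynomial.C (1 : ℤ) * (X ^ 2 + X) * X ^ 2 =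
        Polynomial.C (1 : ℤ) * X ^ 2 * X ^ 2 := by
      simp only [Polynomial.C_neg, Polynomial.C_1]
      ring
    obtain ⟨A, hA1, hA2⟩ := dense_free hid p (by simp) (by omega)
    refine ⟨p, ⟨hp⟩, A, hA1, ?_⟩
    have hpp : (0 : ℝ) < p := by exact_mod_cast hp.pos
    have h5 := hN p (by omega)
    have h6 : (p : ℝ) ^ (1 - γ) * (p : ℝ) ^ γ = p := by
      rw [← Real.rpow_add hpp]
      simp
    have h7 : (0 : ℝ) < (p : ℝ) ^ (1 - γ) := Real.rpow_pos_of_pos hpp _
    have h8 : (p : ℝ) ≤ 12 * (A.card : ℝ) := by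
      refine hA2.trans (le_of_eq ?_)
      norm_num
    nlinarith

end Pool.Agent.Results.MP_4db342_co.LiteralNegation
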